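import Pool.Agent.X260.EN.Mod

set_option autoImplicit false
set_option linter.unusedSectionVars false

namespace Pool.Agent.X260.EN

theorem evt (b : ℕ → Prop) (h : {j | ¬ (b j ↔ b (j + 1))}.Finite) :
    {j | b j}.Finite ∨ {j | ¬ b j}.Finite := by
  obtain ⟨N, hN⟩ := h.bddAbove
  have h1 : ∀ j, N < j → (b j ↔ b (N + 1)) := by
    intro j hj
    induction j with
    | zero => omega
    | succ j ih =>
      by_cases hj' : j = N
      · rw [hj']
      · have h2 : N < j := by omega
        rw [← ih h2]
        by_contra hne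
        have : j ∈ {j | ¬ (b j ↔ b (j + 1))} := fun e => hne e.symm
        have := hN this
        omega
  by_cases hb : b (N + 1)
  · right
    refine (Set.finite_le_nat N).subset ?_
    intro j hj
    by_contra hlt
    have hlt' : N < j := by
      have : ¬ j ≤ N := hlt
      omega
    exact hj ((h1 j hlt').2 hb)
  · left
    refine (Set.finite_le_nat N).subset ?_
    intro j hj
    by_contra hlt
    have hlt' : N < j := by
      have : ¬ j ≤ N := hlt
      omega
    exact hb ((h1 j hlt').1 hj)

theorem evt' (b : ℕ → Prop) (h : {j | b j}.Finite ∨ {j | ¬ b j}.Finite) :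
    ∃ N : ℕ, ∃ Q : Prop, ∀ j, N < j → (b j ↔ Q) := by
  rcases h with h | h
  · obtain ⟨N, hN⟩ := h.bddAbove
    refine ⟨N, False, fun j hj => ⟨fun hb => ?_, fun hb => hb.elim⟩⟩
    have := hN (show j ∈ {j | b j} from hb)
    omega
  · obtain ⟨N, hN⟩ := h.bddAbove
    refine ⟨N, True, fun j hj => ⟨fun _ => trivial, fun _ => ?_⟩⟩
    by_contra hb
    have := hN (show j ∈ {j | ¬ b j} from hb)
    omega

/-- the enumeration of the nonzero integers in two pieces -/
def eZ (p : Fin 2 × ℕ) : Multiplicative ℤ :=
  if p.1 = 0 then Multiplicative.ofAdd ((p.2 : ℤ) + 1) else Multiplicative.ofAdd (-((p.2 : ℤ) + 1))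

theorem eZ_zero (j : ℕ) : eZ (0, j) = Multiplicative.ofAdd ((j : ℤ) + 1) := rfl

theorem eZ_one (j : ℕ) : eZ (1, j) = Multiplicative.ofAdd (-((j : ℤ) + 1)) := rfl

/-- the data of `ℤ` -/
def dZ : HD (Multiplicative ℤ) 1 where
  e := eZ
  inj := by
    rintro ⟨s, j⟩ ⟨s', j'⟩ h
    have h01 : ∀ s : Fin 2, s = 0 ∨ s = 1 := by decide
    rcases h01 s with rfl | rfl <;> rcases h01 s' with rfl | rfl
    · rw [eZ_zero, eZ_zero] at h
      have := Multiplicative.ofAdd.injective h
      simp only [Prod.mk.injEq, true_and]; omega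
    · rw [eZ_zero, eZ_one] at h
      have := Multiplicative.ofAdd.injective h
      omega
    · rw [eZ_zero, eZ_one] at h
      have := Multiplicative.ofAdd.injective h
      omega
    · rw [eZ_one, eZ_one] at h
      have := Multiplicative.ofAdd.injective h
      simp only [Prod.mk.injEq, true_and]; omega
  ne := by
    rintro ⟨s, j⟩ h
    have h01 : ∀ s : Fin 2, s = 0 ∨ s = 1 := by decide
    rcases h01 s with rfl | rfl
    · rw [eZ_zero] at h
      have := Multiplicative.ofAdd.injective (h.trans ofAdd_zero.symm)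
      omega
    · rw [eZ_one] at h
      have := Multiplicative.ofAdd.injective (h.trans ofAdd_zero.symm)
      omega
  surj := by
    intro h hh
    have hz : Multiplicative.toAdd h ≠ 0 := by
      intro e
      apply hh
      have := congrArg Multiplicative.ofAdd e
      simpa using this
    rcases lt_or_gt_of_ne hz with hlt | hgt
    · refine ⟨(1, (-(Multiplicative.toAdd h) - 1).toNat), ?_⟩
      rw [eZ_one]
      have : -((((-(Multiplicative.toAdd h) - 1).toNat : ℕ) : ℤ) + 1) = Multiplicative.toAdd h := by
        omega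
      rw [this]; rfl
    · refine ⟨(0, ((Multiplicative.toAdd h) - 1).toNat), ?_⟩
      rw [eZ_zero]
      have : (((((Multiplicative.toAdd h) - 1).toNat : ℕ) : ℤ) + 1) = Multiplicative.toAdd h := by
        omega
      rw [this]; rfl
  comm := by
    intro C
    constructor
    · intro hC s
      have h01 : ∀ s : Fin 2, s = 0 ∨ s = 1 := by decide
      have h1 := hC (Multiplicative.ofAdd 1)
      rcases h01 s with rfl | rfl
      · refine evt (fun j => eZ (0, j) ∈ C) ?_
        refine (h1.preimage (f := fun j : ℕ => eZ (0, j)) ?_).subset ?_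
        · intro j _ j' _ h
          have h' : eZ (0, j) = eZ (0, j') := h
          rw [eZ_zero, eZ_zero] at h'
          have := Multiplicative.ofAdd.injective h'
          omega
        · intro j hj
          have e : Multiplicative.ofAdd (1 : ℤ) * eZ (0, j) = eZ (0, j + 1) := by
            rw [eZ_zero, eZ_zero, ← ofAdd_add]
            exact congrArg Multiplicative.ofAdd (by push_cast; ring)
          show ¬ (eZ (0, j) ∈ C ↔ Multiplicative.ofAdd (1 : ℤ) * eZ (0, j) ∈ C)
          rw [e]; exact hj
      · refine evt (fun j => eZ (1, j) ∈ C) ?_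
        refine (h1.preimage (f := fun j : ℕ => eZ (1, j + 1)) ?_).subset ?_
        · intro j _ j' _ h
          have h' : eZ (1, j + 1) = eZ (1, j' + 1) := h
          rw [eZ_one, eZ_one] at h'
          have := Multiplicative.ofAdd.injective h'
          push_cast at this
          omega
        · intro j hj
          have e : Multiplicative.ofAdd (1 : ℤ) * eZ (1, j + 1) = eZ (1, j) := by
            rw [eZ_one, eZ_one, ← ofAdd_add]
            exact congrArg Multiplicative.ofAdd (by push_cast; ring)
          show ¬ (eZ (1, j + 1) ∈ C ↔ Multiplicative.ofAdd (1 : ℤ) * eZ (1, j + 1) ∈ C)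
          rw [e]
          have hj' : ¬ (eZ (1, j) ∈ C ↔ eZ (1, j + 1) ∈ C) := hj
          exact fun h => hj' h.symm
    · intro hC h
      obtain ⟨N, Q, hN⟩ := evt' (fun j => eZ (0, j) ∈ C) (hC 0)
      obtain ⟨N', Q', hN'⟩ := evt' (fun j => eZ (1, j) ∈ C) (hC 1)
      have hp : ∀ z : ℤ, (N : ℤ) + 1 < z → (Multiplicative.ofAdd z ∈ C ↔ Q) := by
        intro z hz
        have := hN (z - 1).toNat (by omega)
        have e : eZ (0, (z - 1).toNat) = Multiplicative.ofAdd z := by
          rw [eZ_zero]; congr 1; omega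
        have h' : (eZ (0, (z - 1).toNat) ∈ C ↔ Q) := this
        rwa [e] at h'
      have hn : ∀ z : ℤ, z < -((N' : ℤ) + 1) → (Multiplicative.ofAdd z ∈ C ↔ Q') := by
        intro z hz
        have := hN' (-z - 1).toNat (by omega)
        have e : eZ (1, (-z - 1).toNat) = Multiplicative.ofAdd z := by
          rw [eZ_one]; congr 1; omega
        have h' : (eZ (1, (-z - 1).toNat) ∈ C ↔ Q') := this
        rwa [e] at h'
      set m : ℤ := Multiplicative.toAdd h with hm
      have hfin : (Multiplicative.ofAdd '' (Set.Icc (-((N' : ℤ) + 1) - |m|) ((N : ℤ) + 1 + |m|))).Finite :=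
        (Set.finite_Icc _ _).image _
      refine hfin.subset ?_
      intro x hx
      refine ⟨Multiplicative.toAdd x, ?_, rfl⟩
      have hx' : ¬ (x ∈ C ↔ h * x ∈ C) := hx
      have e1 : x = Multiplicative.ofAdd (Multiplicative.toAdd x) := rfl
      have e2 : h * x = Multiplicative.ofAdd (m + Multiplicative.toAdd x) := rfl
      have habs := neg_abs_le m
      have habs' := le_abs_self m
      rw [Set.mem_Icc]
      by_contra hcon
      rw [not_and_or] at hcon
      apply hx'
      rcases hcon with hcon | hcon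
      · rw [e2]
        have h1 := hn (Multiplicative.toAdd x) (by have := abs_nonneg m; omega)
        have h2 := hn (m + Multiplicative.toAdd x) (by omega)
        rw [h2, ← h1]; rfl
      · rw [e2]
        have h1 := hp (Multiplicative.toAdd x) (by have := abs_nonneg m; omega)
        have h2 := hp (m + Multiplicative.toAdd x) (by omega)
        rw [h2, ← h1]; rfl
  S := {Multiplicative.ofAdd 1}
  gen := by
    rw [Finset.coe_singleton, ← Subgroup.zpowers_eq_closure, eq_top_iff]
    intro x _
    rw [Subgroup.mem_zpowers_iff]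
    refine ⟨Multiplicative.toAdd x, ?_⟩
    rw [← ofAdd_zsmul]
    simp

theorem exists_dZ2 : Nonempty (HD (Multiplicative (ℤ × ℤ)) 0) := by
  classical
  have hinf : Infinite {h : Multiplicative (ℤ × ℤ) // h ≠ 1} := by
    refine Infinite.of_injective (fun n : ℕ => (⟨Multiplicative.ofAdd ((n : ℤ) + 1, (0 : ℤ)), ?_⟩ :
      {h : Multiplicative (ℤ × ℤ) // h ≠ 1})) ?_
    · intro h
      have h2 := congrArg (fun x => (Multiplicative.toAdd x).1) h
      have h3 : (n : ℤ) + 1 = 0 := h2
      omega
    · intro n n' h
      have h2 := congrArg (fun x : {h : Multiplicative (ℤ × ℤ) // h ≠ 1} =>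
        (Multiplicative.toAdd x.1).1) h
      have h3 : (n : ℤ) + 1 = (n' : ℤ) + 1 := h2
      omega
  have hcount : Countable (Multiplicative (ℤ × ℤ)) := inferInstanceAs (Countable (ℤ × ℤ))
  obtain ⟨E⟩ : Nonempty (ℕ ≃ {h : Multiplicative (ℤ × ℤ) // h ≠ 1}) :=
    nonempty_equiv_of_countable
  refine ⟨{
    e := fun p => (E p.2).1
    inj := ?_
    ne := fun p => (E p.2).2
    surj := ?_
    comm := ?_
    S := {Multiplicative.ofAdd ((1 : ℤ), (0 : ℤ)), Multiplicative.ofAdd ((0 : ℤ), (1 : ℤ))}
    gen := ?_ }⟩
  · rintro ⟨s, j⟩ ⟨s', j'⟩ h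
    have h1 : j = j' := E.injective (Subtype.ext h)
    have h2 : s = s' := Subsingleton.elim (α := Fin 1) _ _
    rw [h1, h2]
  · intro h hh
    exact ⟨(0, E.symm ⟨h, hh⟩), by simp⟩
  · intro C
    constructor
    · intro hC s
      have h1 := hC (Multiplicative.ofAdd ((1 : ℤ), (0 : ℤ)))
      have h2 := hC (Multiplicative.ofAdd ((0 : ℤ), (1 : ℤ)))
      obtain ⟨R, hR⟩ : ∃ R : ℕ, ∀ x : Multiplicative (ℤ × ℤ),
          (x ∈ {x | ¬ (x ∈ C ↔ Multiplicative.ofAdd ((1 : ℤ), (0 : ℤ)) * x ∈ C)} ∨
           x ∈ {x | ¬ (x ∈ C ↔ Multiplicative.ofAdd ((0 : ℤ), (1 : ℤ)) * x ∈ C)}) →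
          |(Multiplicative.toAdd x).1| ≤ R ∧ |(Multiplicative.toAdd x).2| ≤ R := by
        have h3 := (h1.union h2).image
          (fun x => (Multiplicative.toAdd x).1.natAbs + (Multiplicative.toAdd x).2.natAbs)
        obtain ⟨R, hR⟩ := h3.bddAbove
        refine ⟨R, fun x hx => ?_⟩
        have h4 := hR ⟨x, hx, rfl⟩
        have h5 : (Multiplicative.toAdd x).1.natAbs + (Multiplicative.toAdd x).2.natAbs ≤ R := h4
        rw [Int.abs_eq_natAbs, Int.abs_eq_natAbs]
        constructor <;> exact_mod_cast (by omega)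
      set c : ℤ → ℤ → Prop := fun a b => Multiplicative.ofAdd (a, b) ∈ C with hc
      have hv : ∀ a, (R : ℤ) < |a| → ∀ b, (c a b ↔ c a (b + 1)) := by
        intro a ha b
        by_contra hne
        have h4 := (hR (Multiplicative.ofAdd (a, b)) (Or.inr (by
          show ¬ (Multiplicative.ofAdd (a, b) ∈ C ↔
            Multiplicative.ofAdd ((0 : ℤ) + a, (1 : ℤ) + b) ∈ C)
          rw [zero_add, add_comm]
          exact hne))).1
        have h5 : |a| ≤ R := h4
        omega
      have hh : ∀ b, (R : ℤ) < |b| → ∀ a, (c a b ↔ c (a + 1) b) := by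
        intro b hb a
        by_contra hne
        have h4 := (hR (Multiplicative.ofAdd (a, b)) (Or.inl (by
          show ¬ (Multiplicative.ofAdd (a, b) ∈ C ↔
            Multiplicative.ofAdd ((1 : ℤ) + a, (0 : ℤ) + b) ∈ C)
          rw [zero_add, add_comm]
          exact hne))).2
        have h5 : |b| ≤ R := h4
        omega
      have gen1 : ∀ f : ℤ → Prop, (∀ b, (f b ↔ f (b + 1))) → ∀ b b', (f b ↔ f b') := by
        intro f hf
        have h0 : ∀ b, (f b ↔ f 0) := by
          intro b
          induction b using Int.induction_on with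
          | zero => rfl
          | succ i ih => rw [← ih]; exact (hf _).symm
          | pred i ih =>
            rw [← ih]
            have := hf (-(i : ℤ) - 1)
            rw [sub_add_cancel] at this
            exact this
        intro b b'
        rw [h0 b, h0 b']
      have hall : ∀ a b, ((R : ℤ) < |a| ∨ (R : ℤ) < |b|) → (c a b ↔ c (R + 1) (R + 1)) := by
        have hR1 : (R : ℤ) < |(R : ℤ) + 1| := by
          rw [abs_of_nonneg (by positivity)]; omega
        intro a b hab
        rcases hab with ha | hb
        · rw [gen1 (fun b => c a b) (hv a ha) b (R + 1)]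
          exact gen1 (fun a => c a (R + 1)) (hh (R + 1) hR1) a (R + 1)
        · rw [gen1 (fun a => c a b) (hh b hb) a (R + 1)]
          exact gen1 (fun b => c (R + 1) b) (hv (R + 1) hR1) b (R + 1)
      have hbox : {j : ℕ | |(Multiplicative.toAdd (E j).1).1| ≤ R ∧
          |(Multiplicative.toAdd (E j).1).2| ≤ R}.Finite := by
        have hb : ((Set.Icc (-(R : ℤ)) R) ×ˢ (Set.Icc (-(R : ℤ)) R)).Finite :=
          (Set.finite_Icc _ _).prod (Set.finite_Icc _ _)
        refine (hb.preimage (f := fun j : ℕ => Multiplicative.toAdd (E j).1) ?_).subset ?_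
        · intro j _ j' _ h
          exact E.injective (Subtype.ext h)
        · rintro j ⟨ha, hb⟩
          rw [abs_le] at ha hb
          exact ⟨⟨ha.1, ha.2⟩, ⟨hb.1, hb.2⟩⟩
      have hout : ∀ j : ℕ, j ∉ {j : ℕ | |(Multiplicative.toAdd (E j).1).1| ≤ R ∧
          |(Multiplicative.toAdd (E j).1).2| ≤ R} → ((E j).1 ∈ C ↔ c (R + 1) (R + 1)) := by
        intro j hj
        have h6 : ¬ (|(Multiplicative.toAdd (E j).1).1| ≤ R ∧
          |(Multiplicative.toAdd (E j).1).2| ≤ R) := hj
        rw [not_and_or, not_le, not_le] at h6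
        exact hall _ _ h6
      by_cases hcR : c (R + 1) (R + 1)
      · right
        refine hbox.subset ?_
        intro j hj
        by_contra hcon
        exact hj ((hout j hcon).2 hcR)
      · left
        refine hbox.subset ?_
        intro j hj
        by_contra hcon
        exact hcR ((hout j hcon).1 hj)
    · intro hC h
      have hkey : ∀ B : Set (Multiplicative (ℤ × ℤ)), {j | (E j).1 ∈ B}.Finite →
          {x | ¬ (x ∈ B ↔ h * x ∈ B)}.Finite := by
        intro B hB
        have hBf : B.Finite := by
          refine ((hB.image (fun j => (E j).1)).union (Set.finite_singleton 1)).subset ?_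
          intro x hx
          by_cases hx1 : x = 1
          · exact Or.inr hx1
          · refine Or.inl ⟨E.symm ⟨x, hx1⟩, ?_, by simp⟩
            show (E (E.symm ⟨x, hx1⟩)).1 ∈ B
            rw [E.apply_symm_apply]; exact hx
        refine (hBf.union (hBf.preimage (f := fun x => h * x)
          (mul_right_injective h).injOn)).subset ?_
        intro x hx
        have hx' : ¬ (x ∈ B ↔ h * x ∈ B) := hx
        show x ∈ B ∨ h * x ∈ B
        tauto
      rcases hC 0 with h1 | h1
      · exact hkey C h1
      · refine (hkey Cᶜ h1).subset ?_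
        intro x hx
        have hx' : ¬ (x ∈ C ↔ h * x ∈ C) := hx
        show ¬ (x ∉ C ↔ h * x ∉ C)
        tauto
  · rw [eq_top_iff]
    intro x _
    have e : x = (Multiplicative.ofAdd ((1 : ℤ), (0 : ℤ))) ^ (Multiplicative.toAdd x).1 *
        (Multiplicative.ofAdd ((0 : ℤ), (1 : ℤ))) ^ (Multiplicative.toAdd x).2 := by
      rw [← ofAdd_zsmul, ← ofAdd_zsmul, ← ofAdd_add]
      apply Multiplicative.toAdd.injective
      simp
    rw [e]
    refine mul_mem (zpow_mem (Subgroup.subset_closure (by simp)) _)
      (zpow_mem (Subgroup.subset_closure (by simp)) _)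

end Pool.Agent.X260.EN
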