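import Pool.Agent.X260.KG.Wd

set_option autoImplicit false
set_option linter.unusedSectionVars false

namespace Pool.Agent.X260.EN

open Monoid Monoid.CoprodI Pool.Agent.X260.KG

/-- skipping one value -/
def skip : Option ℕ → ℕ → ℕ
  | none, m => m
  | some t, m => if m < t then m else m + 1

theorem skip_some (t m : ℕ) : skip (some t) m = if m < t then m else m + 1 := rfl

theorem skip_ne (o : Option ℕ) (m : ℕ) : o ≠ some (skip o m) := by
  cases o with
  | none => simp
  | some t =>
    intro h
    have h' : t = if m < t then m else m + 1 := Option.some.inj h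
    split_ifs at h' <;> omega

theorem skip_inj (o : Option ℕ) {m m' : ℕ} (h : skip o m = skip o m') : m = m' := by
  cases o with
  | none => exact h
  | some t =>
    rw [skip_some, skip_some] at h
    split_ifs at h <;> omega

theorem skip_surj (o : Option ℕ) (n : ℕ) (h : o ≠ some n) : ∃ m, skip o m = n ∧ m ≤ n := by
  cases o with
  | none => exact ⟨n, rfl, le_rfl⟩
  | some t =>
    have h' : t ≠ n := fun e => h (by rw [e])
    by_cases hlt : n < t
    · exact ⟨n, by simp [skip, hlt], le_rfl⟩
    · refine ⟨n - 1, ?_, by omega⟩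
      rw [skip_some, if_neg (by omega)]; omega

theorem skip_le (o : Option ℕ) (m : ℕ) : skip o m = m ∨ skip o m = m + 1 := by
  cases o with
  | none => exact Or.inl rfl
  | some t =>
    rw [skip_some]
    split_ifs <;> simp

variable {H : Type} [Group H] {d : ℕ}

/-- A finitely generated group whose nontrivial elements are split into `d + 1` infinite pieces,
such that the commensurated subsets are those almost constant on each piece. -/
structure HD (H : Type) [Group H] (d : ℕ) where
  e : Fin (d + 1) × ℕ → H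
  inj : Function.Injective e
  ne : ∀ p, e p ≠ 1
  surj : ∀ h : H, h ≠ 1 → ∃ p, e p = h
  comm : ∀ C : Set H, (∀ h, {x | ¬ (x ∈ C ↔ h * x ∈ C)}.Finite) ↔
    ∀ s, {j | e (s, j) ∈ C}.Finite ∨ {j | e (s, j) ∉ C}.Finite
  S : Finset H
  gen : Subgroup.closure (S : Set H) = ⊤

/-- the free product of countably many copies -/
abbrev P (H : Type) [Group H] : Type := CoprodI (fun _ : ℕ => H)

/-- a letter -/
abbrev lt (n : ℕ) (h : H) : P H := CoprodI.of (M := fun _ : ℕ => H) (i := n) h

theorem st_none_iff {x : P H} : st x = none ↔ x = 1 := by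
  constructor
  · intro h
    by_contra hne
    obtain ⟨i, j, hij⟩ := exists_ed hne
    rw [hij.st] at h
    cases h
  · rintro rfl; exact st_one

theorem st_cons {n : ℕ} {h : H} {x : P H} (hh : h ≠ 1) (hx : st x ≠ some n) :
    st (lt n h * x) = some n := by
  by_cases h1 : x = 1
  · rw [h1, mul_one]; exact (ed_of (M := fun _ : ℕ => H) hh).st
  · obtain ⟨k, l, hkl⟩ := exists_ed h1
    have hk : k ≠ n := by
      rintro rfl; exact hx hkl.st
    exact ((ed_of (M := fun _ : ℕ => H) hh).mul hkl hk.symm).st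

theorem uniq {n : ℕ} {h h' : H} {x x' : P H} (hx : st x ≠ some n) (hx' : st x' ≠ some n)
    (e : lt n h * x = lt n h' * x') : h = h' ∧ x = x' := by
  have h1 : x' = lt n (h'⁻¹ * h) * x := by
    show x' = (CoprodI.of (M := fun _ : ℕ => H) (i := n) (h'⁻¹ * h)) * x
    rw [map_mul, mul_assoc, map_inv]
    have : CoprodI.of (M := fun _ : ℕ => H) (i := n) h * x = lt n h' * x' := e
    rw [this, inv_mul_cancel_left]
  by_cases h2 : h'⁻¹ * h = 1
  · have h3 : h = h' := (inv_mul_eq_one.1 h2).symm
    refine ⟨h3, ?_⟩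
    rw [h1, h2]
    show x = CoprodI.of (M := fun _ : ℕ => H) (i := n) 1 * x
    rw [map_one, one_mul]
  · exfalso
    apply hx'
    rw [h1]
    exact st_cons h2 hx

theorem decomp (n : ℕ) (x : P H) : ∃ h : H, ∃ x₀ : P H, st x₀ ≠ some n ∧ x = lt n h * x₀ := by
  by_cases hx : st x = some n
  · have h1 : x ≠ 1 := by
      rintro rfl
      rw [st_one] at hx
      cases hx
    obtain ⟨i, j, hij⟩ := exists_ed h1
    have hi : i = n := by
      have := hij.st
      rw [hx] at this
      exact (Option.some.inj this).symm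
    subst hi
    obtain ⟨m, _, g', hg, h2⟩ := hij.fst
    refine ⟨m, g', ?_, hg⟩
    rcases h2 with ⟨h2, _⟩ | ⟨k, hk, h2⟩
    · rw [h2, st_one]; simp
    · rw [h2.st]
      intro e
      exact hk (Option.some.inj e)
  · refine ⟨1, x, hx, ?_⟩
    show x = CoprodI.of (M := fun _ : ℕ => H) (i := n) 1 * x
    rw [map_one, one_mul]

/-- the piece index -/
def pc (d k : ℕ) : Fin (d + 1) := ⟨k % (d + 1), Nat.mod_lt _ (Nat.succ_pos d)⟩

/-- the bijection -/
noncomputable def ph (D : HD H d) : List (ℕ × ℕ) → P H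
  | [] => 1
  | (k, j) :: w => lt (skip (st (ph D w)) (k / (d + 1))) (D.e (pc d k, j)) * ph D w

theorem ph_cons (D : HD H d) (k j : ℕ) (w : List (ℕ × ℕ)) : ph D ((k, j) :: w) =
    lt (skip (st (ph D w)) (k / (d + 1))) (D.e (pc d k, j)) * ph D w := rfl

theorem st_ph_cons (D : HD H d) (k j : ℕ) (w : List (ℕ × ℕ)) : st (ph D ((k, j) :: w)) =
    some (skip (st (ph D w)) (k / (d + 1))) := by
  rw [ph_cons]
  exact st_cons (D.ne _) (skip_ne _ _)

theorem ph_inj (D : HD H d) : Function.Injective (ph D) := by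
  intro l
  induction l with
  | nil =>
    intro l' h
    cases l' with
    | nil => rfl
    | cons a w =>
      obtain ⟨k, j⟩ := a
      have := st_ph_cons D k j w
      rw [← h] at this
      have h2 : st (ph D []) = none := st_one
      rw [h2] at this
      cases this
  | cons a w ih =>
    obtain ⟨k, j⟩ := a
    intro l' h
    cases l' with
    | nil =>
      have := st_ph_cons D k j w
      rw [h] at this
      have h2 : st (ph D []) = none := st_one
      rw [h2] at this
      cases this
    | cons a' w' =>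
      obtain ⟨k', j'⟩ := a'
      have h1 := st_ph_cons D k j w
      have h2 := st_ph_cons D k' j' w'
      rw [h, h2] at h1
      have h3 := (Option.some.inj h1).symm
      rw [ph_cons, ph_cons, ← h3] at h
      have h4 : st (ph D w') ≠ some (skip (st (ph D w)) (k / (d + 1))) := by
        rw [h3]; exact skip_ne _ _
      obtain ⟨h5, h6⟩ := uniq (skip_ne _ _) h4 h
      have h7 := ih h6
      subst h7
      have h8 := skip_inj _ h3
      have h9 := D.inj h5
      rw [Prod.mk.injEq] at h9
      have h10 : k % (d + 1) = k' % (d + 1) := congrArg Fin.val h9.1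
      have h11 : k = k' := by
        rw [← Nat.div_add_mod k (d + 1), ← Nat.div_add_mod k' (d + 1), h8, h10]
      rw [h11, h9.2]

/-- the index with given type and piece -/
theorem exists_k (o : Option ℕ) (n : ℕ) (h : o ≠ some n) (s : Fin (d + 1)) :
    ∃ k, k < (d + 1) * (n + 1) ∧ skip o (k / (d + 1)) = n ∧ pc d k = s := by
  obtain ⟨m, hm, hmn⟩ := skip_surj o n h
  have h1 : (s.1 + (d + 1) * m) / (d + 1) = m := by
    rw [Nat.add_mul_div_left _ _ (Nat.succ_pos d), Nat.div_eq_of_lt s.2, zero_add]
  have h2 : (s.1 + (d + 1) * m) % (d + 1) = s.1 := by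
    rw [Nat.add_mul_mod_self_left, Nat.mod_eq_of_lt s.2]
  refine ⟨s.1 + (d + 1) * m, ?_, ?_, ?_⟩
  · have := s.2
    have h3 : (d + 1) * (m + 1) ≤ (d + 1) * (n + 1) := Nat.mul_le_mul_left _ (by omega)
    have h4 : (d + 1) * (m + 1) = (d + 1) * m + (d + 1) := by ring
    omega
  · rw [h1]; exact hm
  · exact Fin.ext h2

theorem ph_surj (D : HD H d) : Function.Surjective (ph D) := by
  have key : ∀ n : ℕ, ∀ g : P H, len g ≤ n → ∃ l, ph D l = g := by
    intro n
    induction n with
    | zero =>
      intro g hg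
      by_cases h1 : g = 1
      · exact ⟨[], h1.symm⟩
      · obtain ⟨i, j, h⟩ := exists_ed h1
        have := len_pos h
        omega
    | succ n ih =>
      intro g hg
      by_cases h1 : g = 1
      · exact ⟨[], h1.symm⟩
      obtain ⟨i, j, h⟩ := exists_ed h1
      obtain ⟨m, hm, g', hg', h2⟩ := h.fst
      have h3 : ∃ w, ph D w = g' := by
        rcases h2 with ⟨h2, _⟩ | ⟨k, hk, h2⟩
        · exact ⟨[], h2.symm⟩
        · apply ih
          have := len_mul (ed_of hm) h2 hk.symm
          rw [← hg', len_of hm] at this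
          omega
      have h4 : st g' ≠ some i := by
        rcases h2 with ⟨h2, _⟩ | ⟨k, hk, h2⟩
        · rw [h2, st_one]; simp
        · rw [h2.st]; intro e; exact hk (Option.some.inj e)
      obtain ⟨w, rfl⟩ := h3
      obtain ⟨⟨s, j'⟩, hp⟩ := D.surj m hm
      obtain ⟨k, _, hk1, hk2⟩ := exists_k (d := d) _ i h4 s
      refine ⟨(k, j') :: w, ?_⟩
      rw [ph_cons, hk1, hk2, hp, hg']
  intro g
  exact key _ g le_rfl

/-- the model: subsets of `List (ℕ × ℕ)` -/
def Mod (A : Set (List (ℕ × ℕ))) : Prop :=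
  (∀ k, {w | ∃ j, ¬ ((k, j) :: w ∈ A ↔ w ∈ A)}.Finite) ∧
  ∀ k w, {j | (k, j) :: w ∈ A}.Finite ∨ {j | (k, j) :: w ∉ A}.Finite

theorem left_iff (A : Set (P H)) : (∀ g : P H, {x | ¬ (x ∈ A ↔ g * x ∈ A)}.Finite) ↔
    ∀ (n : ℕ) (h : H), {x : P H | ¬ (x ∈ A ↔ lt n h * x ∈ A)}.Finite := by
  constructor
  · intro hA n h; exact hA _
  · intro hA g
    induction g using CoprodI.induction_on with
    | one => simp
    | of n h => exact hA n h
    | mul x y hx hy =>
      have hinj : Function.Injective (fun s : P H => y * s) := mul_right_injective y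
      refine (hy.union (hx.preimage hinj.injOn)).subset ?_
      intro s hs
      simp only [Set.mem_setOf_eq, Set.mem_union, Set.mem_preimage, mul_assoc] at *
      tauto

theorem const_of_gen (D : HD H d) (C : Set H) (hC : ∀ g ∈ D.S, ∀ x, (x ∈ C ↔ g * x ∈ C)) (x : H) :
    x ∈ C ↔ (1 : H) ∈ C := by
  have key : ∀ g ∈ Subgroup.closure (D.S : Set H), ∀ x, (x ∈ C ↔ g * x ∈ C) := by
    intro g hg
    induction hg using Subgroup.closure_induction with
    | mem g hg => exact hC g hg
    | one => intro x; rw [one_mul]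
    | mul a b _ _ ha hb => intro x; rw [hb x, ha (b * x), mul_assoc]
    | inv a _ ha => intro x; rw [ha (a⁻¹ * x), mul_inv_cancel_left]
  have := key x (by rw [D.gen]; trivial) 1
  rw [mul_one] at this
  exact this.symm

theorem main_iff (D : HD H d) (A : Set (P H)) :
    (∀ g : P H, {x | ¬ (x ∈ A ↔ g * x ∈ A)}.Finite) ↔ Mod (ph D ⁻¹' A) := by
  rw [left_iff]
  have hinj : ∀ (n : ℕ) (w : List (ℕ × ℕ)), st (ph D w) ≠ some n →
      Function.Injective (fun h : H => lt n h * ph D w) := by
    intro n w hw h h' e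
    exact (uniq hw hw e).1
  constructor
  · intro hA
    constructor
    · intro k
      have hfin : ∀ n : ℕ, {w | st (ph D w) ≠ some n ∧ ∃ g ∈ D.S, ∃ h' : H,
          ¬ (lt n h' * ph D w ∈ A ↔ lt n g * (lt n h' * ph D w) ∈ A)}.Finite := by
        intro n
        have h1 : {w | st (ph D w) ≠ some n ∧ ∃ g ∈ D.S, ∃ h' : H,
          ¬ (lt n h' * ph D w ∈ A ↔ lt n g * (lt n h' * ph D w) ∈ A)} ⊆
          ⋃ g ∈ (D.S : Set H), ⋃ x ∈ {x : P H | ¬ (x ∈ A ↔ lt n g * x ∈ A)},
            {w | st (ph D w) ≠ some n ∧ ∃ h' : H, lt n h' * ph D w = x} := by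
          rintro w ⟨hw, g, hg, h', hh'⟩
          simp only [Set.mem_iUnion]
          exact ⟨g, hg, _, hh', hw, h', rfl⟩
        refine Set.Finite.subset ?_ h1
        refine Set.Finite.biUnion D.S.finite_toSet fun g _ => ?_
        refine Set.Finite.biUnion (hA n g) fun x _ => ?_
        refine Set.Subsingleton.finite ?_
        rintro w ⟨hw, h1, e1⟩ w' ⟨hw', h2, e2⟩
        exact ph_inj D (uniq hw hw' (e1.trans e2.symm)).2
      refine ((hfin (k / (d + 1))).union (hfin (k / (d + 1) + 1))).subset ?_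
      rintro w ⟨j, hj⟩
      have key : ∀ n, skip (st (ph D w)) (k / (d + 1)) = n → w ∈ {w | st (ph D w) ≠ some n ∧
          ∃ g ∈ D.S, ∃ h' : H,
          ¬ (lt n h' * ph D w ∈ A ↔ lt n g * (lt n h' * ph D w) ∈ A)} := by
        rintro n rfl
        refine ⟨skip_ne _ _, ?_⟩
        by_contra hcon
        push Not at hcon
        apply hj
        have h2 := const_of_gen D {h : H | lt (skip (st (ph D w)) (k / (d + 1))) h * ph D w ∈ A} (by
          intro g hg x
          have h3 := hcon g hg x
          have e : lt (skip (st (ph D w)) (k / (d + 1))) g *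
              (lt (skip (st (ph D w)) (k / (d + 1))) x * ph D w) =
              lt (skip (st (ph D w)) (k / (d + 1))) (g * x) * ph D w := by
            show CoprodI.of _ * (CoprodI.of _ * _) = CoprodI.of _ * _
            rw [← mul_assoc, ← map_mul]
          rw [e] at h3
          exact h3) (D.e (pc d k, j))
        have h4 : ((1 : H) ∈ {h : H | lt (skip (st (ph D w)) (k / (d + 1))) h * ph D w ∈ A}) ↔
            ph D w ∈ A := by
          show CoprodI.of _ * _ ∈ A ↔ _
          rw [map_one, one_mul]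
        rw [h4] at h2
        exact h2
      rcases skip_le (st (ph D w)) (k / (d + 1)) with h | h
      · exact Or.inl (key _ h)
      · exact Or.inr (key _ h)
    · intro k w
      have h1 := (D.comm {h : H | lt (skip (st (ph D w)) (k / (d + 1))) h * ph D w ∈ A}).1 (by
        intro h
        refine ((hA (skip (st (ph D w)) (k / (d + 1))) h).preimage
          ((hinj (skip (st (ph D w)) (k / (d + 1))) w (skip_ne _ _)).injOn)).subset ?_
        intro x hx
        have e : lt (skip (st (ph D w)) (k / (d + 1))) h *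
              (lt (skip (st (ph D w)) (k / (d + 1))) x * ph D w) =
              lt (skip (st (ph D w)) (k / (d + 1))) (h * x) * ph D w := by
            show CoprodI.of _ * (CoprodI.of _ * _) = CoprodI.of _ * _
            rw [← mul_assoc, ← map_mul]
        show ¬ (lt (skip (st (ph D w)) (k / (d + 1))) x * ph D w ∈ A ↔
          lt (skip (st (ph D w)) (k / (d + 1))) h *
              (lt (skip (st (ph D w)) (k / (d + 1))) x * ph D w) ∈ A)
        rw [e]
        exact hx) (pc d k)
      exact h1
  · rintro ⟨hM1, hM2⟩ n h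
    -- the exceptional cosets
    have hW : {w | st (ph D w) ≠ some n ∧ ∃ x : H, ¬ (lt n x * ph D w ∈ A ↔ ph D w ∈ A)}.Finite := by
      have h1 : {w | st (ph D w) ≠ some n ∧ ∃ x : H, ¬ (lt n x * ph D w ∈ A ↔ ph D w ∈ A)} ⊆
          ⋃ k ∈ {k | k < (d + 1) * (n + 1)},
            {w | ∃ j, ¬ ((k, j) :: w ∈ ph D ⁻¹' A ↔ w ∈ ph D ⁻¹' A)} := by
        rintro w ⟨hw, x, hx⟩
        have hx1 : x ≠ 1 := by
          rintro rfl
          apply hx
          show CoprodI.of _ * _ ∈ A ↔ _
          rw [map_one, one_mul]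
        obtain ⟨⟨s, j⟩, hp⟩ := D.surj x hx1
        obtain ⟨k, hk, hk1, hk2⟩ := exists_k (d := d) _ n hw s
        simp only [Set.mem_iUnion]
        refine ⟨k, hk, j, ?_⟩
        show ¬ (ph D ((k, j) :: w) ∈ A ↔ ph D w ∈ A)
        rw [ph_cons, hk1, hk2, hp]
        exact hx
      refine Set.Finite.subset ?_ h1
      exact Set.Finite.biUnion (Set.finite_lt_nat _) fun k _ => hM1 k
    have h2 : {x : P H | ¬ (x ∈ A ↔ lt n h * x ∈ A)} ⊆
        ⋃ w ∈ {w | st (ph D w) ≠ some n ∧ ∃ x : H, ¬ (lt n x * ph D w ∈ A ↔ ph D w ∈ A)},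
          (fun x : H => lt n x * ph D w) '' {x : H | ¬ (lt n x * ph D w ∈ A ↔
            lt n (h * x) * ph D w ∈ A)} := by
      intro x hx
      obtain ⟨h', x₀, hx₀, rfl⟩ := decomp n x
      obtain ⟨w, rfl⟩ := ph_surj D x₀
      have e : lt n h * (lt n h' * ph D w) = lt n (h * h') * ph D w := by
        show CoprodI.of _ * (CoprodI.of _ * _) = CoprodI.of _ * _
        rw [← mul_assoc, ← map_mul]
      have hx' : ¬ (lt n h' * ph D w ∈ A ↔ lt n h * (lt n h' * ph D w) ∈ A) := hx
      rw [e] at hx'
      simp only [Set.mem_iUnion]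
      refine ⟨w, ⟨hx₀, ?_⟩, h', hx', rfl⟩
      by_contra hcon
      push Not at hcon
      apply hx'
      rw [hcon h', hcon (h * h')]
    refine Set.Finite.subset ?_ h2
    refine Set.Finite.biUnion hW ?_
    rintro w ⟨hw, _⟩
    refine Set.Finite.image _ ?_
    have h3 := (D.comm {x : H | lt n x * ph D w ∈ A}).2 (by
      intro s
      obtain ⟨k, hk, hk1, hk2⟩ := exists_k (d := d) _ n hw s
      have h4 := hM2 k w
      have e : ∀ j, ((k, j) :: w ∈ ph D ⁻¹' A) ↔ D.e (s, j) ∈ {x : H | lt n x * ph D w ∈ A} := by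
        intro j
        show ph D ((k, j) :: w) ∈ A ↔ _
        rw [ph_cons, hk1, hk2]
        rfl
      simp only [e] at h4
      exact h4) h
    exact h3

end Pool.Agent.X260.EN
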