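import Pool.Agent.X260.EN.Dat

set_option autoImplicit false
set_option linter.unusedSectionVars false

namespace Pool.Agent.X260.EN

/-- `A` is left commensurated: `gA △ A` is finite for every `g`. -/
def Commensurated {G : Type} [Group G] (A : Set G) : Prop :=
  ∀ g : G, (symmDiff ((fun x => g * x) '' A) A).Finite

theorem comm_iff {G : Type} [Group G] (A : Set G) :
    Commensurated A ↔ ∀ g : G, {x | ¬ (x ∈ A ↔ g * x ∈ A)}.Finite := by
  have h : ∀ g : G, symmDiff ((fun x => g * x) '' A) A = {x | ¬ (x ∈ A ↔ g⁻¹ * x ∈ A)} := by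
    intro g
    ext x
    have : x ∈ (fun x => g * x) '' A ↔ g⁻¹ * x ∈ A := by
      constructor
      · rintro ⟨y, hy, rfl⟩; simpa using hy
      · intro hx; exact ⟨g⁻¹ * x, hx, by simp⟩
    rw [Set.mem_symmDiff, this]
    show _ ↔ ¬ (x ∈ A ↔ g⁻¹ * x ∈ A)
    tauto
  constructor
  · intro hA g
    have := hA g⁻¹
    rw [h, inv_inv] at this
    exact this
  · intro hA g
    rw [h]
    exact hA g⁻¹

/-- A point of the space of ends: a homomorphism from the Boolean algebra of commensurated
subsets to `{0,1}` that vanishes on the finite subsets. -/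
def IsEnd {G : Type} [Group G] (χ : {S : Set G // Commensurated S} → Bool) : Prop :=
  (∀ S T U : {S : Set G // Commensurated S}, U.1 = S.1 ∩ T.1 → χ U = (χ S && χ T)) ∧
  (∀ S T : {S : Set G // Commensurated S}, T.1 = S.1ᶜ → χ T = !χ S) ∧
  (∀ S : {S : Set G // Commensurated S}, S.1.Finite → χ S = false)

/-- The space of ends of `G` (topology of pointwise convergence). -/
abbrev EndSpace (G : Type) [Group G] : Type :=
  {χ : {S : Set G // Commensurated S} → Bool // IsEnd χ}

section

variable {G G' : Type} [Group G] [Group G'] (f : G ≃ G')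
  (hf : ∀ A : Set G', Commensurated A ↔ Commensurated (f ⁻¹' A))

/-- pull back of a commensurated set -/
def pb (A : {S : Set G' // Commensurated S}) : {S : Set G // Commensurated S} :=
  ⟨f ⁻¹' A.1, (hf A.1).1 A.2⟩

/-- the map of spaces of ends -/
def mp (χ : EndSpace G) : EndSpace G' :=
  ⟨fun A => χ.1 (pb f hf A), by
    refine ⟨?_, ?_, ?_⟩
    · intro S T U h
      refine χ.2.1 _ _ _ ?_
      show f ⁻¹' U.1 = f ⁻¹' S.1 ∩ f ⁻¹' T.1
      rw [h]; rfl
    · intro S T h
      refine χ.2.2.1 _ _ ?_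
      show f ⁻¹' T.1 = (f ⁻¹' S.1)ᶜ
      rw [h]; rfl
    · intro S h
      refine χ.2.2.2 _ ?_
      exact h.preimage f.injective.injOn⟩

theorem mp_cont : Continuous (mp f hf) := by
  have h : Continuous (fun χ : EndSpace G => fun A : {S : Set G' // Commensurated S} =>
      χ.1 (pb f hf A)) :=
    continuous_pi fun A => (continuous_apply (pb f hf A)).comp continuous_subtype_val
  exact h.subtype_mk _

include hf in
theorem hf_symm (A : Set G) : Commensurated A ↔ Commensurated (f.symm ⁻¹' A) := by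
  rw [hf]
  have : f ⁻¹' (f.symm ⁻¹' A) = A := by
    rw [← Set.preimage_comp]; simp
  rw [this]

/-- a bijection respecting commensurated sets induces a homeomorphism -/
def homeo : EndSpace G ≃ₜ EndSpace G' where
  toFun := mp f hf
  invFun := mp f.symm (hf_symm f hf)
  left_inv χ := by
    apply Subtype.ext
    funext A
    refine congrArg χ.1 (a₁ := pb f hf (pb f.symm (hf_symm f hf) A)) (Subtype.ext ?_)
    show f ⁻¹' (f.symm ⁻¹' A.1) = A.1
    rw [← Set.preimage_comp]; simp
  right_inv χ := by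
    apply Subtype.ext
    funext A
    refine congrArg χ.1 (a₁ := pb f.symm (hf_symm f hf) (pb f hf A)) (Subtype.ext ?_)
    show f.symm ⁻¹' (f ⁻¹' A.1) = A.1
    rw [← Set.preimage_comp]; simp
  continuous_toFun := mp_cont f hf
  continuous_invFun := mp_cont f.symm (hf_symm f hf)

end

theorem hd_bij {H : Type} [Group H] {d : ℕ} (D : HD H d) : ∃ f : List (ℕ × ℕ) ≃ P H,
    ∀ A : Set (P H), Commensurated A ↔ Mod (f ⁻¹' A) := by
  refine ⟨Equiv.ofBijective (ph D) ⟨ph_inj D, ph_surj D⟩, fun A => ?_⟩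
  rw [comm_iff]
  exact main_iff D A

theorem hd_hd {H H' : Type} [Group H] [Group H'] {d d' : ℕ} (D : HD H d) (D' : HD H' d') :
    ∃ f : P H ≃ P H', ∀ A : Set (P H'), Commensurated A ↔ Commensurated (f ⁻¹' A) := by
  obtain ⟨f, hf⟩ := hd_bij D
  obtain ⟨f', hf'⟩ := hd_bij D'
  refine ⟨f.symm.trans f', fun A => ?_⟩
  rw [hf', hf]
  have : f ⁻¹' ((f.symm.trans f') ⁻¹' A) = f' ⁻¹' A := by
    rw [← Set.preimage_comp]
    congr 1
    funext x
    simp
  rw [this]

theorem iso_comm {G G' : Type} [Group G] [Group G'] (e : G ≃* G') (A : Set G') :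
    Commensurated A ↔ Commensurated (e.toEquiv ⁻¹' A) := by
  rw [comm_iff, comm_iff]
  constructor
  · intro h g
    refine ((h (e g)).preimage e.injective.injOn).subset ?_
    intro x hx
    have hx' : ¬ (e x ∈ A ↔ e (g * x) ∈ A) := hx
    show ¬ (e x ∈ A ↔ e g * e x ∈ A)
    rwa [map_mul] at hx'
  · intro h g
    refine ((h (e.symm g)).preimage e.symm.injective.injOn).subset ?_
    intro x hx
    have hx' : ¬ (x ∈ A ↔ g * x ∈ A) := hx
    show ¬ (e (e.symm x) ∈ A ↔ e (e.symm g * e.symm x) ∈ A)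
    rw [map_mul, e.apply_symm_apply, e.apply_symm_apply]
    exact hx'

/-- the free group on `ℕ` is the free product of infinite cyclic groups -/
def frE : FreeGroup ℕ ≃* P (Multiplicative ℤ) :=
  MonoidHom.toMulEquiv
    (FreeGroup.lift fun n => lt n (Multiplicative.ofAdd 1))
    (Monoid.CoprodI.lift fun n => zpowersHom (FreeGroup ℕ) (FreeGroup.of n))
    (by ext n; simp [lt])
    (by
      ext n
      simp [lt])

end Pool.Agent.X260.EN
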